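import Pool.Agent.Y714.KE.BasB

set_option autoImplicit false
set_option linter.unusedSectionVars false
set_option linter.unusedVariables false

/-! KE-BIJ: heights of reduced pairs, points and normalised reduced lattices for etale algebras
(adaptation of the files KF/Bij of helper672 and KF/Bij2 of helper864). -/

namespace Pool.Agent.Y977.KE

open Pool.Agent.Y714.KE
open Pool.Agent.Y714.KF (FI sp ct nm pm ext br gl ubas qf bk el sg bf)
open NumberField FractionalIdeal Module Finset ComplexConjugate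
open scoped nonZeroDivisors

section

variable {s : Type} [Fintype s] [DecidableEq s] {K : s → Type} [∀ i, Field (K i)]
  [∀ i, NumberField (K i)]

theorem glq_one (P : Al K × Al K) : glq 1 0 0 1 P = P := by
  unfold glq
  refine Prod.ext ?_ ?_ <;> simp

theorem sm_one (P : Al K × Al K) : sm 1 P = P := by
  unfold sm
  refine Prod.ext ?_ ?_ <;> simp

theorem inv_mul_al {x : Al K} (hx : ∀ i, x i ≠ 0) : x⁻¹ * x = 1 := by
  funext i
  simp only [Pi.mul_apply, Pi.inv_apply, Pi.one_apply]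
  exact inv_mul_cancel₀ (hx i)

theorem mul_inv_al {x : Al K} (hx : ∀ i, x i ≠ 0) : x * x⁻¹ = 1 := by
  rw [mul_comm]; exact inv_mul_al hx

theorem inv_al_ne {x : Al K} (hx : ∀ i, x i ≠ 0) (i : s) : x⁻¹ i ≠ 0 := by
  rw [Pi.inv_apply]; exact inv_ne_zero (hx i)

theorem mul_al_ne {x y : Al K} (hx : ∀ i, x i ≠ 0) (hy : ∀ i, y i ≠ 0) (i : s) :
    (x * y) i ≠ 0 := by
  rw [Pi.mul_apply]; exact mul_ne_zero (hx i) (hy i)

theorem E.refl (P : Al K × Al K) : Eq2 P P :=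
  ⟨1, 1, 0, 0, 1, fun i => by simp, by norm_num, by rw [glq_one, sm_one]⟩

theorem E.smul (P : Al K × Al K) {x : Al K} (hx : ∀ i, x i ≠ 0) : Eq2 P (sm x P) :=
  ⟨x, 1, 0, 0, 1, hx, by norm_num, by rw [glq_one]⟩

theorem E.gl (P : Al K × Al K) {a b c d : ℚ} (h : a * d - b * c ≠ 0) : Eq2 P (glq a b c d P) :=
  ⟨1, a, b, c, d, fun i => by simp, h, by rw [sm_one]⟩

theorem E.trans {P Q S : Al K × Al K} (h : Eq2 P Q) (h' : Eq2 Q S) : Eq2 P S := by
  obtain ⟨x, a, b, c, d, hx, hd, rfl⟩ := h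
  obtain ⟨y, a', b', c', d', hy, hd', rfl⟩ := h'
  refine ⟨y * x, a' * a + b' * c, a' * b + b' * d, c' * a + d' * c,
    c' * b + d' * d, mul_al_ne hy hx, ?_, ?_⟩
  · have : (a' * a + b' * c) * (c' * b + d' * d) - (a' * b + b' * d) * (c' * a + d' * c) =
        (a' * d' - b' * c') * (a * d - b * c) := by ring
    rw [this]
    exact mul_ne_zero hd' hd
  · rw [← sm_sm, ← glq_glq, sm_glq x a' b' c' d']

theorem E.symm {P Q : Al K × Al K} (h : Eq2 P Q) : Eq2 Q P := by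
  obtain ⟨x, a, b, c, d, hx, hd, rfl⟩ := h
  refine ⟨x⁻¹, d / (a * d - b * c), -b / (a * d - b * c), -c / (a * d - b * c),
    a / (a * d - b * c), inv_al_ne hx, ?_, ?_⟩
  · have : d / (a * d - b * c) * (a / (a * d - b * c)) -
        -b / (a * d - b * c) * (-c / (a * d - b * c)) = (a * d - b * c)⁻¹ := by
      field_simp
    rw [this]
    exact inv_ne_zero hd
  · rw [← sm_glq, sm_sm, inv_mul_al hx, sm_one, glq_glq]
    have e1 : d / (a * d - b * c) * a + -b / (a * d - b * c) * c = 1 := by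
      rw [div_mul_eq_mul_div, div_mul_eq_mul_div, ← add_div, div_eq_one_iff_eq hd]
      ring
    have e2 : d / (a * d - b * c) * b + -b / (a * d - b * c) * d = 0 := by
      field_simp
      ring
    have e3 : -c / (a * d - b * c) * a + a / (a * d - b * c) * c = 0 := by
      field_simp
      ring
    have e4 : -c / (a * d - b * c) * b + a / (a * d - b * c) * d = 1 := by
      rw [div_mul_eq_mul_div, div_mul_eq_mul_div, ← add_div, div_eq_one_iff_eq hd]
      ring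
    rw [e1, e2, e3, e4, glq_one]

theorem E.nd {P Q : Al K × Al K} (h : Eq2 P Q) (hP : ND P) : ND Q := by
  obtain ⟨x, a, b, c, d, hx, hd, rfl⟩ := h
  exact (hP.glq hd).sm hx

theorem E.of_LT {P Q : Al K × Al K} (hP : IN P) (hQ : IN Q) (h : LT P = LT Q) : Eq2 P Q := by
  obtain ⟨m, n, k, l, hdet, rfl⟩ := LT_eq hP hQ h
  have hd0 : ((m : ℚ) * l - n * k) ≠ 0 := by
    rcases hdet with h | h
    · have : (m : ℚ) * l - n * k = 1 := by exact_mod_cast congrArg (Int.cast : ℤ → ℚ) h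
      rw [this]; norm_num
    · have : (m : ℚ) * l - n * k = -1 := by exact_mod_cast congrArg (Int.cast : ℤ → ℚ) h
      rw [this]; norm_num
  rw [glz_eq]
  exact E.gl P hd0

theorem sp_pos {x : Al K} (hx : ∀ i, x i ≠ 0) : 0 < nA (fun i => sp (x i)) :=
  nA_pos fun i => by
    intro h
    exact hx i (spanSingleton_eq_zero_iff.1 h)

theorem hp_sm {P : Al K × Al K} {x : Al K} (hx : ∀ i, x i ≠ 0) : hp (sm x P) = hp P := by
  unfold hp
  rw [pm_vc_sm, cn_sm, nA_mul]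
  have h2 : (0 : ℝ) < ((nA (fun i => sp (x i)) : ℚ) : ℝ) := by exact_mod_cast sp_pos hx
  push_cast
  rw [mul_pow, mul_div_mul_left _ _ (by positivity)]

/-- reduced pairs in one class have proportional lattices -/
theorem exists_LT_sm (h2 : S_UNI K) {P Q : Al K × Al K} (hn : 2 ≤ dg K) (hP : ND P) (h3 : RD P)
    (h4 : RD Q) (h : Eq2 P Q) : ∃ y : Al K, (∀ i, y i ≠ 0) ∧ LT Q = LT (sm y P) := by
  have hQ := E.nd h hP
  obtain ⟨x, a, b, c, d, hx, hd, he⟩ := h
  obtain ⟨r, hr, hL⟩ := h2 (sm x P) Q ((hP.sm hx).ind hn) (hQ.ind hn) (h3.sm hx) h4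
    ⟨a, b, c, d, by rw [he, sm_glq]⟩
  refine ⟨r • x, fun i => ?_, ?_⟩
  · rw [Pi.smul_apply]
    exact smul_ne_zero hr (hx i)
  · rw [hL]
    congr 1
    unfold sm
    refine Prod.ext ?_ ?_
    · simp only [Prod.smul_fst, smul_mul_assoc]
    · simp only [Prod.smul_snd, smul_mul_assoc]

theorem hp_eq (h2 : S_UNI K) {P Q : Al K × Al K} (hodd : Odd (dg K)) (hn : 2 ≤ dg K) (hP : ND P)
    (h3 : RD P) (h4 : RD Q) (h : Eq2 P Q) : hp Q = hp P := by
  obtain ⟨y, hy, hL⟩ := exists_LT_sm h2 hn hP h3 h4 h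
  obtain ⟨-, e1, -⟩ := LT_inv hodd hn (hP.sm hy) hL.symm
  rw [← hp_sm (P := P) hy]
  unfold hp
  rw [e1, cn_congr hL]

theorem ht_eq (h1 : S_DESC K) (h2 : S_UNI K) (hodd : Odd (dg K)) (hn : 3 ≤ dg K)
    {P Q : Al K × Al K} (hP : ND P) (hQ : RD Q) (h : Eq2 P Q) : Pool.Agent.Y714.KE.ht P = hp Q := by
  have hn2 : 2 ≤ dg K := by omega
  have hQN := E.nd h hP
  unfold Pool.Agent.Y714.KE.ht
  apply IsLeast.csInf_eq
  constructor
  · obtain ⟨x, a, b, c, d, hx, hd, he⟩ := h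
    refine ⟨a, b, c, d, hd, ?_⟩
    rw [he, hp_sm hx]
  · rintro r ⟨a, b, c, d, hd, rfl⟩
    have hE : Eq2 P (glq a b c d P) := E.gl P hd
    have hN := E.nd hE hP
    obtain ⟨Q', hQ', ⟨a', b', c', d', hd', he'⟩, hle⟩ := h1 hodd hn _ hN
    have hE' : Eq2 (glq a b c d P) Q' := by
      rw [he']; exact E.gl _ hd'
    have hN' := E.nd hE' hN
    have e1 : hp Q' = hp Q := hp_eq h2 hodd hn2 hQN hQ hQ' (E.trans (E.symm h) (E.trans hE hE'))
    rw [← e1]
    unfold hp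
    have g1 : (0 : ℝ) < ((nA (cn Q') : ℚ) : ℝ) := by
      exact_mod_cast nA_pos (cn_ne fun i => hN'.ne hn2 i)
    have g2 : (0 : ℝ) < ((nA (cn (glq a b c d P)) : ℚ) : ℝ) := by
      exact_mod_cast nA_pos (cn_ne fun i => hN.ne hn2 i)
    rw [div_le_div_iff₀ (by positivity) (by positivity)]
    exact hle

variable (K) in
/-- heights of reduced pairs, invariance of the height -/
theorem ht (h1 : S_DESC K) (h2 : S_UNI K) : S_HT K := by
  intro hodd hn
  constructor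
  · intro P hP hR
    exact ht_eq h1 h2 hodd hn hP hR (E.refl P)
  · intro P P' hP hr
    have hP' : ND P' := E.nd hr hP
    refine ⟨hP', ?_⟩
    obtain ⟨Q, hQ, ⟨a, b, c, d, hd, he⟩, -⟩ := h1 hodd hn _ hP
    have hE' : Eq2 P Q := by rw [he]; exact E.gl _ hd
    rw [ht_eq h1 h2 hodd hn hP hQ hE', ht_eq h1 h2 hodd hn hP' hQ (E.trans (E.symm hr) hE')]

/-! ### units -/

theorem exists_unit1 {F : Type} [Field F] [NumberField F] {y : F} (hy : y ≠ 0) (h : sp y = 1) :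
    ∃ u : (𝓞 F)ˣ, ((u : 𝓞 F) : F) = y := by
  have h1 : y ∈ (1 : FI F) := by
    rw [← h]; exact mem_spanSingleton_self _ _
  have h2 : y⁻¹ ∈ (1 : FI F) := by
    have : sp y⁻¹ = 1 := by
      have h3 : sp (y * y⁻¹) = 1 := by rw [mul_inv_cancel₀ hy]; exact spanSingleton_one
      rwa [Pool.Agent.Y714.KF.sp_mul, h, one_mul] at h3
    rw [← this]; exact mem_spanSingleton_self _ _
  rw [mem_one_iff] at h1 h2
  obtain ⟨a, ha⟩ := h1
  obtain ⟨b, hb⟩ := h2
  have hab : a * b = 1 := by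
    apply FaithfulSMul.algebraMap_injective (𝓞 F) F
    rw [map_mul, ha, hb, mul_inv_cancel₀ hy, map_one]
  exact ⟨⟨a, b, hab, by rw [mul_comm]; exact hab⟩, ha⟩

theorem sp_unit {F : Type} [Field F] [NumberField F] (u : (𝓞 F)ˣ) : sp ((u : 𝓞 F) : F) = 1 := by
  have h1 : sp ((u : 𝓞 F) : F) ≤ 1 := Pool.Agent.Y714.KF.sp_le.2 ((mem_one_iff _).2 ⟨u, rfl⟩)
  have h2 : sp (((u⁻¹ : (𝓞 F)ˣ) : 𝓞 F) : F) ≤ 1 :=
    Pool.Agent.Y714.KF.sp_le.2 ((mem_one_iff _).2 ⟨((u⁻¹ : (𝓞 F)ˣ) : 𝓞 F), rfl⟩)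
  have h3 : sp ((u : 𝓞 F) : F) * sp (((u⁻¹ : (𝓞 F)ˣ) : 𝓞 F) : F) = 1 := by
    rw [← Pool.Agent.Y714.KF.sp_mul]
    have : ((u : 𝓞 F) : F) * (((u⁻¹ : (𝓞 F)ˣ) : 𝓞 F) : F) = 1 := by
      rw [← map_mul (algebraMap (𝓞 F) F)]
      simp
    rw [this]
    exact spanSingleton_one
  refine le_antisymm h1 ?_
  calc (1 : FI F) = sp ((u : 𝓞 F) : F) * sp (((u⁻¹ : (𝓞 F)ˣ) : 𝓞 F) : F) := h3.symm
    _ ≤ sp ((u : 𝓞 F) : F) * 1 := by gcongr
    _ = _ := mul_one _

theorem exists_un {y : Al K} (hy : ∀ i, y i ≠ 0) (h : ∀ i, sp (y i) = 1) :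
    ∃ u : ∀ i, (𝓞 (K i))ˣ, un u = y := by
  choose u hu using fun i => exists_unit1 (hy i) (h i)
  exact ⟨u, funext hu⟩

theorem un_ne (u : ∀ i, (𝓞 (K i))ˣ) (i : s) : un u i ≠ 0 := Units.coe_ne_zero (u i)

theorem cn_un (u : ∀ i, (𝓞 (K i))ˣ) (P : Al K × Al K) : cn (sm (un u) P) = cn P := by
  rw [cn_sm]
  funext i
  unfold un
  rw [sp_unit, one_mul]

theorem un_mul (u v : ∀ i, (𝓞 (K i))ˣ) : un (u * v) = un u * un v := by
  funext i
  simp [un]

theorem un_inj {u v : ∀ i, (𝓞 (K i))ˣ} (h : un u = un v) : u = v := by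
  funext i
  have := congrFun h i
  unfold un at this
  apply Units.ext
  apply RingOfIntegers.coe_injective
  exact this

theorem LT_sm_neg (x : Al K) (P : Al K × Al K) : LT (sm (-x) P) = LT (sm x P) := by
  have : sm (-x) P = glz (-1) 0 0 (-1) (sm x P) := by
    unfold sm glz
    refine Prod.ext ?_ ?_ <;> simp
  rw [this]
  exact LT_glz _ _ _ _ (Or.inl (by norm_num)) _

/-- the class of a lattice -/
def cls (M : Submodule ℤ (Al K)) : Set (Al K × Al K) :=
  {P' | ∃ P : Al K × Al K, M = LT P ∧ ND P ∧ Eq2 P P'}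

theorem cls_LT {P : Al K × Al K} (hn : 2 ≤ dg K) (hP : ND P) :
    cls (LT P) = {P' | Eq2 P P'} := by
  ext P'
  constructor
  · rintro ⟨P1, h1, h2, h3⟩
    exact E.trans (E.of_LT (hP.ind hn) (h2.ind hn) h1) h3
  · intro h
    exact ⟨P, rfl, hP, h⟩

theorem cls_eq {P Q : Al K × Al K} (hn : 2 ≤ dg K) (hP : ND P)
    (h : Eq2 P Q) : cls (LT Q) = {P' | Eq2 P P'} := by
  rw [cls_LT hn (E.nd h hP)]
  ext P'
  constructor
  · intro h'
    exact E.trans h h'
  · intro h'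
    exact E.trans (E.symm h) h'

/-- the family of the units `-1` -/
def m1 : ∀ i, Units.torsion (K i) := fun i => ⟨-1, by
  rw [Units.torsion, CommGroup.mem_torsion, isOfFinOrder_iff_pow_eq_one]
  exact ⟨2, by norm_num, by simp⟩⟩

/-- a family of roots of unity as a family of units -/
def tu (w : ∀ i, Units.torsion (K i)) : ∀ i, (𝓞 (K i))ˣ := fun i => (w i : (𝓞 (K i))ˣ)

theorem tu_inj {w w' : ∀ i, Units.torsion (K i)} (h : tu w = tu w') : w = w' :=
  funext fun i => Subtype.ext (congrFun h i)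

theorem un_m1 (w : ∀ i, Units.torsion (K i)) : un (tu (w * m1)) = -un (tu w) := by
  funext i
  simp [un, tu, m1]

theorem m1_ne (hn : 3 ≤ dg K) : (m1 : ∀ i, Units.torsion (K i)) ≠ 1 := by
  have hne : Nonempty s := by
    by_contra h
    rw [not_nonempty_iff] at h
    unfold dg at hn
    simp at hn
  obtain ⟨i⟩ := hne
  intro h
  have h1 := congrArg (fun w : ∀ i, Units.torsion (K i) => un (tu w) i) h
  simp only [un, tu, m1, Pi.one_apply] at h1
  simp at h1
  have h2 : (2 : K i) = 0 := by linear_combination -h1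
  exact two_ne_zero h2

/-- fibres of the map from families of roots of unity to lattices -/
theorem LT_tu (hn : 3 ≤ dg K) {P : Al K × Al K} (hP : ND P) (w w' : ∀ i, Units.torsion (K i)) :
    LT (sm (un (tu w')) P) = LT (sm (un (tu w)) P) ↔ w' = w ∨ w' = w * m1 := by
  constructor
  · intro h
    have hw : ∀ i, un (tu w) i ≠ 0 := un_ne _
    have e : sm (un (tu w')) P = sm (un (tu w') * (un (tu w))⁻¹) (sm (un (tu w)) P) := by
      rw [sm_sm, mul_assoc, inv_mul_al hw, mul_one]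
    rw [e] at h
    rcases sm_LT_eq hn (hP.sm hw) h with h1 | h1
    · left
      have h2 : un (tu w') = un (tu w) := by
        calc un (tu w') = un (tu w') * (un (tu w))⁻¹ * un (tu w) := by
              rw [mul_assoc, inv_mul_al hw, mul_one]
          _ = _ := by rw [h1, one_mul]
      exact tu_inj (un_inj h2)
    · right
      have h2 : un (tu w') = un (tu (w * m1)) := by
        rw [un_m1]
        calc un (tu w') = un (tu w') * (un (tu w))⁻¹ * un (tu w) := by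
              rw [mul_assoc, inv_mul_al hw, mul_one]
          _ = _ := by rw [h1, neg_one_mul]
      exact tu_inj (un_inj h2)
  · rintro (rfl | rfl)
    · rfl
    · rw [un_m1, LT_sm_neg]

variable (K) in
/-- points and normalised reduced lattices -/
theorem bij (h0 : S_LOC K) (h1 : S_DESC K) (h2 : S_UNI K) (h4 : S_CR K) : S_BIJ K := by
  classical
  intro hodd hn R hR1 hR2 κ B hB Qc hQc
  have : Fintype (∀ i, Units.torsion (K i)) := Fintype.ofFinite _
  have hn2 : 2 ≤ dg K := by omega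
  have hcf : ∀ (r : FU K) (i : s), cf r i ≠ 0 := fun r i => (r i).ne_zero
  set A : FU K → Set (Submodule ℤ (Al K)) := fun r =>
    {M ∈ SA (κ r) (cf r) (B * ((nA (cf r) : ℚ) : ℝ) ^ 2) |
      (∀ p : ℕ, p.Prime → Loc p (cf r) M) ∧ ∃ P : Al K × Al K, M = LT P ∧ Qc P} with hA
  have hnm : ∀ r : FU K, (0 : ℝ) < ((nA (cf r) : ℚ) : ℝ) := fun r => by
    exact_mod_cast nA_pos (hcf r)
  have hfin : ∀ r, (A r).Finite := by
    intro r
    obtain ⟨C, -, hC⟩ := h4 hodd hn (κ r)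
    exact (hC r (B * ((nA (cf r) : ℚ) : ℝ) ^ 2) (by have := hnm r; positivity)).1.subset
      fun M hM => hM.1
  -- the elements of A
  have hmem : ∀ r M, M ∈ A r → ∃ P : Al K × Al K, M = LT P ∧ cn P = cf r ∧ ND P ∧
      NZ (κ r) (vc P) ∧ pm (vc P) ≤ B * ((nA (cf r) : ℚ) : ℝ) ^ 2 ∧ RD P ∧ Qc P := by
    rintro r M ⟨⟨P, rfl, e1, e2, e3, e4⟩, e5, P', e8, e9⟩
    obtain ⟨e6, e7⟩ := (h0 hodd r P (e2.ind hn2) (e2.ne hn2) e1).1 e5
    have e10 : IN P' := IN_congr (e2.ind hn2) e8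
    have hE : Eq2 P P' := E.of_LT (e2.ind hn2) e10 e8
    exact ⟨P, rfl, e6, e2, e3, e4, e7, (hQc _ _ e2 hE).2 e9⟩
  -- membership in A
  have hmk : ∀ r (P : Al K × Al K), cn P = cf r → ND P → NZ (κ r) (vc P) →
      pm (vc P) ≤ B * ((nA (cf r) : ℚ) : ℝ) ^ 2 → RD P → Qc P → LT P ∈ A r := by
    intro r P c1 c2 c3 c4 c5 c6
    refine ⟨⟨P, rfl, fun i => by rw [c1], c2, c3, c4⟩, ?_, P, rfl, c6⟩
    exact (h0 hodd r P (c2.ind hn2) (c2.ne hn2) (fun i => by rw [c1]; exact le_refl _)).2 ⟨c1, c5⟩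
  set T : Finset (Σ _ : FU K, Submodule ℤ (Al K)) := R.sigma fun r => (hfin r).toFinset with hT
  have hTm : ∀ r M, (⟨r, M⟩ : Σ _ : FU K, Submodule ℤ (Al K)) ∈ T ↔ r ∈ R ∧ M ∈ A r := by
    intro r M
    rw [hT, mem_sigma]
    simp
  set f : (Σ _ : FU K, Submodule ℤ (Al K)) → Set (Al K × Al K) := fun x => cls x.2 with hf
  -- the fibres
  have hfib : ∀ x₀ ∈ T, 2 * (T.filter fun x => f x = f x₀).card =
      Fintype.card (∀ i, Units.torsion (K i)) := by
    rintro ⟨r, M⟩ hx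
    obtain ⟨hr, hM⟩ := (hTm r M).1 hx
    obtain ⟨P, rfl, c1, c2, c3, c4, c5, c6⟩ := hmem r M hM
    have hpos := c2.pm_pos hn2
    obtain ⟨-, u2, u3, u4⟩ := unt (vc P) hpos (fun e => pm_ext_pos hodd hpos e)
    set g : (∀ i, Units.torsion (K i)) → (Σ _ : FU K, Submodule ℤ (Al K)) := fun w =>
      ⟨r, LT (sm (un (tu w)) P)⟩ with hg
    have hfx : f ⟨r, LT P⟩ = {P' | Eq2 P P'} := cls_LT hn2 c2
    have hgm : ∀ w, g w ∈ T.filter fun x => f x = f ⟨r, LT P⟩ := by
      intro w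
      have hw := un_ne (tu w)
      have hE : Eq2 P (sm (un (tu w)) P) := E.smul P hw
      rw [mem_filter]
      refine ⟨(hTm _ _).2 ⟨hr, hmk r _ ?_ (c2.sm hw) ?_ ?_ (c5.sm hw) ((hQc _ _ c2 hE).1 c6)⟩, ?_⟩
      · rw [cn_un, c1]
      · intro j
        rw [vc_sm, u4 (tu w) fun i => (w i).2]
        exact c3 j
      · rw [vc_sm, (u2 (tu w)).1]
        exact c4
      · rw [hfx]
        exact cls_eq hn2 c2 hE
    have hsurj : ∀ x ∈ T.filter (fun x => f x = f ⟨r, LT P⟩), ∃ w, g w = x := by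
      rintro ⟨r', M'⟩ hx'
      rw [mem_filter] at hx'
      obtain ⟨hx', hff⟩ := hx'
      obtain ⟨hr', hM'⟩ := (hTm r' M').1 hx'
      obtain ⟨P', rfl, c1', c2', c3', c4', c5', -⟩ := hmem r' M' hM'
      have g3 : Eq2 P P' := by
        have g1 : P' ∈ f ⟨r', LT P'⟩ := ⟨P', rfl, c2', E.refl P'⟩
        rw [hff, hfx] at g1
        exact g1
      obtain ⟨y, hy, hL⟩ := exists_LT_sm h2 hn2 c2 c5 c5' g3
      have g4 : cn P' = fun i => sp (y i) * cn P i := by rw [cn_congr hL, cn_sm]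
      rw [c1, c1'] at g4
      have g5 : r' = r := hR2 r' hr' r hr y fun i => ⟨hy i, congrFun g4 i⟩
      subst g5
      have g6 : ∀ i, sp (y i) = 1 := by
        intro i
        have g7 : cf r' i = sp (y i) * cf r' i := congrFun g4 i
        have : cf r' i * (cf r' i)⁻¹ = sp (y i) * cf r' i * (cf r' i)⁻¹ := by rw [← g7]
        rw [mul_assoc, mul_inv_cancel₀ (hcf r' i), mul_one] at this
        exact this.symm
      obtain ⟨u, rfl⟩ := exists_un hy g6
      obtain ⟨-, -, e2, -⟩ := LT_inv hodd hn2 (c2.sm hy) hL.symm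
      have g7 : NZ (κ r') (fun e => e.2 (un u e.1) • vc P e) := by
        intro j
        rw [← vc_sm, ← e2]
        exact c3' j
      have g8 := u3 (κ r') u c3 g7
      refine ⟨fun i => ⟨u i, g8 i⟩, ?_⟩
      rw [hg]
      simp only
      rw [hL]
      rfl
    have hmaps : Set.MapsTo g ((univ : Finset (∀ i, Units.torsion (K i))) : Set _)
        (T.filter fun x => f x = f ⟨r, LT P⟩) := fun w _ => hgm w
    have hcard := card_eq_sum_card_fiberwise hmaps
    have hfc : ∀ b ∈ T.filter (fun x => f x = f ⟨r, LT P⟩),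
        (univ.filter fun w => g w = b).card = 2 := by
      intro b hb
      obtain ⟨w, rfl⟩ := hsurj b hb
      have hne : w ≠ w * m1 := by
        intro h
        exact m1_ne hn (mul_eq_left.1 h.symm)
      have : (univ.filter fun w' => g w' = g w) = {w, w * m1} := by
        ext w'
        rw [mem_filter, mem_insert, mem_singleton, ← LT_tu hn c2]
        constructor
        · rintro ⟨-, h⟩
          have h' := eq_of_heq (Sigma.mk.inj h).2
          exact h'
        · intro h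
          refine ⟨mem_univ _, ?_⟩
          rw [hg]
          simp only
          rw [h]
      rw [this, card_pair hne]
    rw [sum_congr rfl hfc, sum_const, smul_eq_mul, card_univ] at hcard
    rw [hcard, mul_comm]
  have himg : {C : Set (Al K × Al K) | ∃ P, ND P ∧ C = {P' | Eq2 P P'} ∧
      Pool.Agent.Y714.KE.ht P ≤ B ∧ Qc P} = ↑(T.image f) := by
    ext C
    rw [Finset.mem_coe, mem_image]
    constructor
    · rintro ⟨P, hP, rfl, hB', hQP⟩
      obtain ⟨Q, hQ, ⟨a, b, c, d, hd, he⟩, -⟩ := h1 hodd hn _ hP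
      have hE : Eq2 P Q := by rw [he]; exact E.gl _ hd
      have hQN := E.nd hE hP
      have hct : ∀ i, cn Q i ≠ 0 := cn_ne (hQN.ne hn2)
      obtain ⟨r, hr, x, hx⟩ := hR1 fun i => Units.mk0 (cn Q i) (hct i)
      have hx0 : ∀ i, x i ≠ 0 := fun i => (hx i).1
      have e1 : cn (sm x⁻¹ Q) = cf r := by
        rw [cn_sm]
        funext i
        have hxr : cn Q i = sp (x i) * cf r i := (hx i).2
        rw [hxr, ← mul_assoc, Pi.inv_apply, ← Pool.Agent.Y714.KF.sp_mul, inv_mul_cancel₀ (hx0 i)]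
        rw [show sp (1 : K i) = 1 from spanSingleton_one, one_mul]
      have hQ1 : ND (sm x⁻¹ Q) := hQN.sm (inv_al_ne hx0)
      have hpos := hQ1.pm_pos hn2
      obtain ⟨u, hu⟩ := (unt _ hpos (fun e => pm_ext_pos hodd hpos e)).1 (κ r)
      set Q2 : Al K × Al K := sm (un u) (sm x⁻¹ Q) with hQ2
      have e2 : cn Q2 = cf r := by rw [hQ2, cn_un, e1]
      have e3 : ND Q2 := hQ1.sm (un_ne u)
      have e4 : RD Q2 := (hQ.sm (inv_al_ne hx0)).sm (un_ne u)
      have e5 : NZ (κ r) (vc Q2) := by rw [hQ2, vc_sm]; exact hu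
      have e6 : Eq2 P Q2 := E.trans (E.trans hE (E.smul Q (inv_al_ne hx0))) (E.smul _ (un_ne u))
      have e7 : Pool.Agent.Y714.KE.ht P = hp Q2 := ht_eq h1 h2 hodd hn hP e4 e6
      refine ⟨⟨r, LT Q2⟩, (hTm _ _).2 ⟨hr, hmk r Q2 e2 e3 e5 ?_ e4 ((hQc _ _ hP e6).1 hQP)⟩, ?_⟩
      · rw [e7, hp, e2, div_le_iff₀ (by have := hnm r; positivity)] at hB'
        exact hB'
      · exact cls_eq hn2 hP e6
    · rintro ⟨⟨r, M⟩, hx, rfl⟩
      obtain ⟨hr, hM⟩ := (hTm r M).1 hx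
      obtain ⟨P, rfl, c1, c2, c3, c4, c5, c6⟩ := hmem r M hM
      refine ⟨P, c2, cls_LT hn2 c2, ?_, c6⟩
      rw [ht_eq h1 h2 hodd hn c2 c5 (E.refl P), hp, c1,
        div_le_iff₀ (by have := hnm r; positivity)]
      exact c4
  have hprod : (∏ i, Nat.card (Units.torsion (K i))) =
      Fintype.card (∀ i, Units.torsion (K i)) := by
    rw [← Nat.card_eq_fintype_card, Nat.card_pi]
  have hmaps : Set.MapsTo f (T : Set _) (T.image f) := fun x hx => mem_image_of_mem f hx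
  have hcard := card_eq_sum_card_fiberwise hmaps
  have hT2 : T.card = ∑ r ∈ R, (A r).ncard := by
    rw [hT, card_sigma]
    refine sum_congr rfl fun r _ => ?_
    rw [← Set.ncard_eq_toFinset_card _ (hfin r)]
  rw [← hT2, himg, Set.ncard_coe_finset, hcard, mul_sum, hprod, mul_comm, ← smul_eq_mul,
    ← sum_const]
  refine sum_congr rfl fun C hC => ?_
  obtain ⟨x₀, hx₀, rfl⟩ := mem_image.1 hC
  exact (hfib x₀ hx₀).symm

end

end Pool.Agent.Y977.KE
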