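import Pool.Agent.Y714.KE.Cusp
import Pool.Agent.Y714.KE.BasD

set_option autoImplicit false
set_option linter.unusedSectionVars false
set_option linter.unusedVariables false

/-! KE-SCJ: scaled coordinates in the cusp cells; the regions are open and bounded. -/

namespace Pool.Agent.Y977.KE

open Pool.Agent.Y714.KE
open Pool.Agent.Y714.KF (FI sp ct nm pm ext br gl ubas qf bk el sg bf)
open NumberField FractionalIdeal Module Finset ComplexConjugate MeasureTheory Filter Topology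
open scoped nonZeroDivisors

section

variable {s : Type} [Fintype s] [DecidableEq s] {K : s → Type} [∀ i, Field (K i)]
  [∀ i, NumberField (K i)]

theorem continuous_sl (j : s) : Continuous (sl (K := K) (R := ℝ) j) := by
  refine continuous_pi fun k => ?_
  by_cases h : cm k = j
  · simp only [sl, h, dite_true]
    exact continuous_const
  · simp only [sl, h, dite_false]
    exact continuous_apply _

theorem sl_inl {R : Type} [Zero R] [One R] (j : s) (x : Jx K j → R) (l : Fin (finrank ℚ (K j))) :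
    sl j x (Sum.inl ⟨j, l⟩) = 0 := by
  have h : cm (Sum.inl ⟨j, l⟩ : Ix K ⊕ Ix K) = j := rfl
  simp [sl, h]

theorem sl_inr {R : Type} [Zero R] [One R] (j : s) (x : Jx K j → R) (l : Fin (finrank ℚ (K j))) :
    sl j x (Sum.inr ⟨j, l⟩) = 1 := by
  have h : cm (Sum.inr ⟨j, l⟩ : Ix K ⊕ Ix K) = j := rfl
  simp [sl, h]

theorem sl_of_ne {R : Type} [Zero R] [One R] (j : s) (x : Jx K j → R) (k : Jx K j) :
    sl j x k.1 = x k := by
  unfold sl
  rw [dif_neg k.2]

/-- the sign of the two halves -/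
def sgn (k : Ix K ⊕ Ix K) : ℝ := Sum.elim (fun _ => 1) (fun _ => -1) k

/-- sums over all coordinates of a weight with a sign -/
theorem sum_Ix (y : s → ℝ) (c : ℝ) :
    ∑ k : Ix K ⊕ Ix K, (y (cm k) + Sum.elim (fun _ => c) (fun _ => -c) k) =
      2 * ∑ i, (finrank ℚ (K i) : ℝ) * y i := by
  rw [Fintype.sum_sum_type, Fintype.sum_sigma, Fintype.sum_sigma]
  simp only [cm, Sum.elim_inl, Sum.elim_inr, sum_const, card_univ, Fintype.card_fin,
    nsmul_eq_mul]
  rw [← sum_add_distrib, mul_sum]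
  refine sum_congr rfl fun i _ => ?_
  ring

theorem sum_filter_Ix (j : s) (hj : finrank ℚ (K j) = 1) (y : s → ℝ) (c : ℝ) :
    ∑ k : Ix K ⊕ Ix K, (if cm k = j then (y (cm k) + Sum.elim (fun _ => c) (fun _ => -c) k) else 0) =
      2 * y j := by
  rw [Fintype.sum_sum_type, Fintype.sum_sigma, Fintype.sum_sigma]
  simp only [cm, Sum.elim_inl, Sum.elim_inr, sum_const, card_univ, Fintype.card_fin,
    nsmul_eq_mul]
  rw [← sum_add_distrib, Finset.sum_eq_single j]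
  · rw [if_pos rfl, if_pos rfl, hj]
    push_cast
    ring
  · intro i _ hi
    rw [if_neg hi, if_neg hi]
    ring
  · intro h
    exact absurd (mem_univ j) h

theorem sum_Jx (j : s) (hj : finrank ℚ (K j) = 1) (y : s → ℝ) (c : ℝ) :
    ∑ k : Jx K j, (y (cm k.1) + Sum.elim (fun _ => c) (fun _ => -c) k.1) =
      2 * (∑ i, (finrank ℚ (K i) : ℝ) * y i) - 2 * y j := by
  have h1 := sum_Ix (K := K) y c
  have h2 := sum_filter_Ix (K := K) j hj y c
  rw [← Finset.sum_subtype (univ.filter fun k : Ix K ⊕ Ix K => cm k ≠ j) (by simp)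
    (fun k : Ix K ⊕ Ix K => y (cm k) + Sum.elim (fun _ => c) (fun _ => -c) k), sum_filter]
  have h3 : (∑ k : Ix K ⊕ Ix K, if cm k ≠ j then
      (y (cm k) + Sum.elim (fun _ => c) (fun _ => -c) k) else 0) +
      ∑ k : Ix K ⊕ Ix K, (if cm k = j then
        (y (cm k) + Sum.elim (fun _ => c) (fun _ => -c) k) else 0) =
      ∑ k : Ix K ⊕ Ix K, (y (cm k) + Sum.elim (fun _ => c) (fun _ => -c) k) := by
    rw [← sum_add_distrib]
    refine sum_congr rfl fun k _ => ?_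
    by_cases h : cm k = j
    · simp [h]
    · simp [h]
  linarith

theorem card_Jx (j : s) (hj : finrank ℚ (K j) = 1) : Fintype.card (Jx K j) + 2 = 2 * dg K := by
  have h := sum_Jx (K := K) j hj (fun _ => 1) 0
  have h1 : ∑ k : Jx K j, ((1 : ℝ) + Sum.elim (fun _ => (0 : ℝ)) (fun _ => -0) k.1) =
      Fintype.card (Jx K j) := by
    have : ∀ k : Jx K j, ((1 : ℝ) + Sum.elim (fun _ => (0 : ℝ)) (fun _ => -0) k.1) = 1 := by
      rintro ⟨k | k, hk⟩ <;> simp
    simp only [this, sum_const, card_univ, nsmul_eq_mul, mul_one]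
  rw [h1] at h
  have h2 : (∑ i, (finrank ℚ (K i) : ℝ) * 1) = dg K := by
    unfold dg
    push_cast
    simp
  rw [h2] at h
  have h3 : ((Fintype.card (Jx K j) + 2 : ℕ) : ℝ) = ((2 * dg K : ℕ) : ℝ) := by
    push_cast
    linarith
  exact_mod_cast h3

theorem prod_ysc (j : s) (hj : finrank ℚ (K j) = 1) (y : s → ℝ) :
    ∏ k, ysc (K := K) j y k = Real.exp (-(2 * y j)) * tt (K := K) y := by
  unfold ysc tt
  rw [← Real.exp_sum, ← Real.exp_add, sum_Jx j hj]
  congr 1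
  ring

/-- the scaled coordinates, left half -/
theorem scj_inl (j : s) (y : s → ℝ) (z : Jx K j → ℤ) (i : s) :
    (fun l => sl j (scj j y z) (Sum.inl ⟨i, l⟩)) =
      (Real.exp (-(y i)) * Real.exp (-(y j))) • fun l => ((sl j z (Sum.inl ⟨i, l⟩) : ℤ) : ℝ) := by
  funext l
  simp only [Pi.smul_apply, smul_eq_mul]
  by_cases h : i = j
  · subst h
    rw [sl_inl, sl_inl]
    simp
  · have hk : cm (Sum.inl ⟨i, l⟩ : Ix K ⊕ Ix K) ≠ j := h
    have e1 := sl_of_ne j (scj j y z) ⟨Sum.inl ⟨i, l⟩, hk⟩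
    have e2 := sl_of_ne j z ⟨Sum.inl ⟨i, l⟩, hk⟩
    simp only at e1 e2
    rw [e1, e2]
    unfold scj ysc cm
    simp only [Sum.elim_inl]
    rw [Real.exp_add, Real.exp_neg, Real.exp_neg]
    field_simp

/-- the scaled coordinates, right half -/
theorem scj_inr (j : s) (y : s → ℝ) (z : Jx K j → ℤ) (i : s) :
    (fun l => sl j (scj j y z) (Sum.inr ⟨i, l⟩)) =
      (Real.exp (-(y i)) * Real.exp (y j)) • fun l => ((sl j z (Sum.inr ⟨i, l⟩) : ℤ) : ℝ) := by
  funext l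
  simp only [Pi.smul_apply, smul_eq_mul]
  by_cases h : i = j
  · subst h
    rw [sl_inr, sl_inr, ← Real.exp_add]
    simp
  · have hk : cm (Sum.inr ⟨i, l⟩ : Ix K ⊕ Ix K) ≠ j := h
    have e1 := sl_of_ne j (scj j y z) ⟨Sum.inr ⟨i, l⟩, hk⟩
    have e2 := sl_of_ne j z ⟨Sum.inr ⟨i, l⟩, hk⟩
    simp only at e1 e2
    rw [e1, e2]
    unfold scj ysc cm
    simp only [Sum.elim_inr]
    rw [Real.exp_add, Real.exp_neg, Real.exp_neg]
    field_simp

theorem rw2_scj (b : Bs K) (j : s) (y : s → ℝ) (z : Jx K j → ℤ) (e : Em K) :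
    rw2 b (sl j (scj j y z)) e = ((Real.exp (-(y e.1)) : ℝ) : ℂ) •
      gl ((Real.exp (-(y j)) : ℝ) : ℂ) 0 0 ((Real.exp (y j) : ℝ) : ℂ) (vc (pr b (sl j z)) e) := by
  unfold rw2
  rw [scj_inl, scj_inr, Pool.Agent.Y714.KF.sg_smul, Pool.Agent.Y714.KF.sg_smul,
    Pool.Agent.Y714.KF.sg_int, Pool.Agent.Y714.KF.sg_int]
  unfold gl vc pr
  refine Prod.ext ?_ ?_
  · simp only [Prod.smul_fst, smul_eq_mul]
    push_cast
    ring
  · simp only [Prod.smul_snd, smul_eq_mul]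
    push_cast
    ring

theorem pr_fst_j (b : Bs K) (j : s) (z : Jx K j → ℤ) : (pr b (sl j z)).1 j = 0 := by
  change el (b j) (fun l => sl j z (Sum.inl ⟨j, l⟩)) = 0
  simp only [sl_inl]
  unfold el
  simp

theorem QY_scj (b : Bs K) (j : s) (y : s → ℝ) (z : Jx K j → ℤ) :
    QY y (pr b (sl j z)).1 = Real.exp (2 * y j) *
      bfA b (lf (sl j (scj j y z))) (lf (sl j (scj j y z))) := by
  unfold QY bfA
  rw [mul_sum]
  refine sum_congr rfl fun i _ => ?_
  change _ = Real.exp (2 * y j) * bf (b i) (fun l => sl j (scj j y z) (Sum.inl ⟨i, l⟩))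
    (fun l => sl j (scj j y z) (Sum.inl ⟨i, l⟩))
  rw [scj_inl, Pool.Agent.Y714.KF.bf_smul_left, Pool.Agent.Y714.KF.bf_smul_right,
    ← Pool.Agent.Y714.KF.qf_el]
  have h : Real.exp (-(2 * y i)) = Real.exp (2 * y j) * (Real.exp (-(y i)) * Real.exp (-(y j)) *
      (Real.exp (-(y i)) * Real.exp (-(y j)))) := by
    rw [← Real.exp_add, ← Real.exp_add, ← Real.exp_add]
    congr 1
    ring
  rw [h]
  change _ * qf (el (b i) fun l => sl j z (Sum.inl ⟨i, l⟩)) = _
  ring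

theorem BY_scj (b : Bs K) (j : s) (y : s → ℝ) (z : Jx K j → ℤ) :
    BY y (pr b (sl j z)).1 (pr b (sl j z)).2 =
      bfA b (lf (sl j (scj j y z))) (rt (sl j (scj j y z))) := by
  unfold BY bfA
  refine sum_congr rfl fun i _ => ?_
  change _ = bf (b i) (fun l => sl j (scj j y z) (Sum.inl ⟨i, l⟩))
    (fun l => sl j (scj j y z) (Sum.inr ⟨i, l⟩))
  rw [scj_inl, scj_inr, Pool.Agent.Y714.KF.bf_smul_left, Pool.Agent.Y714.KF.bf_smul_right,
    ← Pool.Agent.Y714.KF.bk_el]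
  have h : Real.exp (-(2 * y i)) = (Real.exp (-(y i)) * Real.exp (-(y j)) *
      (Real.exp (-(y i)) * Real.exp (y j))) := by
    rw [← Real.exp_add, ← Real.exp_add, ← Real.exp_add]
    congr 1
    ring
  rw [h]
  change _ * bk (el (b i) fun l => sl j z (Sum.inl ⟨i, l⟩))
    (el (b i) fun l => sl j z (Sum.inr ⟨i, l⟩)) = _
  ring

theorem scj_pm (hodd : Odd (dg K)) (b : Bs K) (j : s) (y : s → ℝ) (z : Jx K j → ℤ)
    (hz : 0 < pm (vc (pr b (sl j z)))) :
    pm (rw2 b (sl j (scj j y z))) = pm (vc (pr b (sl j z))) / tt (K := K) y ∧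
      cc (rw2 b (sl j (scj j y z))) = cc (vc (pr b (sl j z))) ∧
      ∀ i, ui (rw2 b (sl j (scj j y z))) i = ui (vc (pr b (sl j z))) i - y i := by
  set P := pr b (sl j z) with hP
  have hdet : ((Real.exp (-(y j)) : ℝ) : ℂ) * ((Real.exp (y j) : ℝ) : ℂ) - 0 * 0 = 1 := by
    rw [mul_zero, sub_zero, ← Complex.ofReal_mul, ← Real.exp_add]
    simp
  set v : Em K → ℂ × ℂ := fun e =>
    gl ((Real.exp (-(y j)) : ℝ) : ℂ) 0 0 ((Real.exp (y j) : ℝ) : ℂ) (vc P e) with hv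
  have hrw : rw2 b (sl j (scj j y z)) = fun e => ((Real.exp (-(y e.1)) : ℝ) : ℂ) • v e :=
    funext fun e => rw2_scj b j y z e
  have hpm : pm v = pm (vc P) := by
    rw [hv, Pool.Agent.Y714.KF.pm_gl, hdet, norm_one, one_pow, one_mul]
  have hv0 : 0 < pm v := by rw [hpm]; exact hz
  obtain ⟨g1, g2⟩ := gla (vc P) hz (pm_ext_pos hodd hz) ((Real.exp (-(y j)) : ℝ) : ℂ) 0 0
    ((Real.exp (y j) : ℝ) : ℂ) (by rw [hdet]; exact one_ne_zero)
  obtain ⟨s1, s2, -⟩ := sca v hv0 (pm_ext_pos hodd hv0) (fun i => Real.exp (-(y i)))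
    (fun i => Real.exp_pos _)
  rw [hrw]
  refine ⟨?_, ?_, fun i => ?_⟩
  · rw [Pool.Agent.Y714.KF.pm_smul (fun e : Em K => ((Real.exp (-(y e.1)) : ℝ) : ℂ)) v,
      prod_expE, hpm, div_eq_inv_mul]
  · rw [s1]
    exact g1
  · rw [s2 i, Real.log_exp]
    have h := g2 i
    rw [hdet, norm_one, Real.log_one, mul_zero, add_zero] at h
    have h' : ui v i = ui (vc P) i := h
    rw [h']
    ring

variable (K) in
theorem scj' : S_SCJ K := by
  intro hodd hn b j hj
  refine ⟨continuous_sl j, card_Jx j hj, prod_ysc j hj, fun y z => ⟨rw2_scj b j y z,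
    pr_fst_j b j z, QY_scj b j y z, BY_scj b j y z, scj_pm hodd b j y z⟩⟩

/-! ### the regions -/

/-- the set of nonzero brackets -/
def UU (b : Bs K) : Set (Ix K ⊕ Ix K → ℝ) :=
  {u | ∀ e f : Em K, e ≠ f → br (rw2 b u e) (rw2 b u f) ≠ 0}

theorem UU_open (b : Bs K) : IsOpen (UU b) := by
  classical
  have h : UU b = ⋂ e : Em K, ⋂ f : Em K,
      {u | e ≠ f → br (rw2 b u e) (rw2 b u f) ≠ 0} := by
    ext u
    simp [UU]
  rw [h]
  refine isOpen_iInter_of_finite fun σ => isOpen_iInter_of_finite fun τ => ?_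
  by_cases hst : σ = τ
  · simp [hst]
  · have h1 : Continuous fun u => br (rw2 b u σ) (rw2 b u τ) := by
      have h2 := continuous_rw2 b
      have h3 : Continuous fun u => rw2 b u σ := (continuous_apply σ).comp h2
      have h4 : Continuous fun u => rw2 b u τ := (continuous_apply τ).comp h2
      exact Pool.Agent.Y714.KF.continuous_br.comp (h3.prodMk h4)
    have h5 : {u : Ix K ⊕ Ix K → ℝ | σ ≠ τ → br (rw2 b u σ) (rw2 b u τ) ≠ 0}
        = {u | br (rw2 b u σ) (rw2 b u τ) ≠ 0} := by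
      ext u
      simp [hst]
    rw [h5]
    exact isOpen_ne_fun h1 continuous_const

theorem continuous_bfA (b : Bs K) {X : Type} [TopologicalSpace X] {f g : X → (Ix K → ℝ)}
    (hf : Continuous f) (hg : Continuous g) : Continuous fun u => bfA b (f u) (g u) := by
  unfold bfA
  refine continuous_finsetSum _ fun i _ => ?_
  unfold bf
  refine continuous_finsetSum _ fun σ _ => ?_
  have h := Pool.Agent.Y714.KF.continuous_sg (b i) σ
  have h1 : Continuous fun u => sg (b i) σ (fun l => f u ⟨i, l⟩) :=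
    h.comp (continuous_pi fun l => (continuous_apply _).comp hf)
  have h2 : Continuous fun u => sg (b i) σ (fun l => g u ⟨i, l⟩) :=
    h.comp (continuous_pi fun l => (continuous_apply _).comp hg)
  exact Complex.continuous_re.comp (h1.mul (Complex.continuous_conj.comp h2))

theorem continuous_lf : Continuous (lf (K := K)) := continuous_pi fun _ => continuous_apply _

theorem continuous_rt : Continuous (rt (K := K)) := continuous_pi fun _ => continuous_apply _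

theorem Dmj_open (b : Bs K) (κ : Ux K → ℝ) (i₀ j : s) (δ : ℝ)
    (h1 : ∀ l, ContinuousOn (fun u => cc (rw2 b u) l) (UU b))
    (h2 : ∀ i, ContinuousOn (fun u => ui (rw2 b u) i) (UU b)) : IsOpen (Dmj b κ i₀ j δ) := by
  have hU := UU_open b
  have c11 := continuous_bfA b (continuous_lf (K := K)) continuous_lf
  have c12 := continuous_bfA b (continuous_lf (K := K)) continuous_rt
  have cpm : Continuous fun u : Ix K ⊕ Ix K → ℝ => pm (rw2 b u) :=
    Pool.Agent.Y714.KF.continuous_pm.comp (continuous_rw2 b)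
  have o1 : IsOpen {u : Ix K ⊕ Ix K → ℝ | δ ^ 2 < bfA b (lf u) (lf u)} :=
    isOpen_lt continuous_const c11
  have o2 : IsOpen {u : Ix K ⊕ Ix K → ℝ | 0 < bfA b (lf u) (rt u)} :=
    isOpen_lt continuous_const c12
  have o3 : IsOpen {u : Ix K ⊕ Ix K → ℝ | bfA b (lf u) (rt u) < bfA b (lf u) (lf u)} :=
    isOpen_lt c12 c11
  have o5 : IsOpen {u : Ix K ⊕ Ix K → ℝ | pm (rw2 b u) < 1} := isOpen_lt cpm continuous_const
  have o6 : IsOpen (UU b ∩ ⋂ l, UU b ∩
      (fun u => cc (rw2 b u) l) ⁻¹' (Set.Ioo (κ l) (κ l + 1))) := by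
    refine hU.inter (isOpen_iInter_of_finite fun l => ?_)
    exact (h1 l).isOpen_inter_preimage hU isOpen_Ioo
  have o7 : IsOpen (⋂ i : {i : s // i ≠ i₀}, UU b ∩
      (fun u => ui (rw2 b u) i.1) ⁻¹' (Set.Ioo 0 1)) := by
    refine isOpen_iInter_of_finite fun i => ?_
    exact (h2 i.1).isOpen_inter_preimage hU isOpen_Ioo
  have o := ((o1.inter o2).inter o3).inter ((o5.inter o6).inter o7)
  have hD : Dmj b κ i₀ j δ = sl j ⁻¹' ((({u : Ix K ⊕ Ix K → ℝ | δ ^ 2 < bfA b (lf u) (lf u)} ∩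
      {u : Ix K ⊕ Ix K → ℝ | 0 < bfA b (lf u) (rt u)}) ∩
      {u : Ix K ⊕ Ix K → ℝ | bfA b (lf u) (rt u) < bfA b (lf u) (lf u)}) ∩
      (({u : Ix K ⊕ Ix K → ℝ | pm (rw2 b u) < 1} ∩ (UU b ∩ ⋂ l, UU b ∩
        (fun u => cc (rw2 b u) l) ⁻¹' (Set.Ioo (κ l) (κ l + 1)))) ∩
        (⋂ i : {i : s // i ≠ i₀}, UU b ∩
          (fun u => ui (rw2 b u) i.1) ⁻¹' (Set.Ioo 0 1)))) := by
    ext u
    constructor
    · rintro ⟨e1, e2, e3, e4, e5, e6, e7⟩
      exact ⟨⟨⟨e1, e2⟩, e3⟩, ⟨e5, e4, Set.mem_iInter.2 fun l => ⟨e4, e6 l⟩⟩,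
        Set.mem_iInter.2 fun i => ⟨e4, e7 i.1 i.2⟩⟩
    · rintro ⟨⟨⟨e1, e2⟩, e3⟩, ⟨e5, e4, e6⟩, e7⟩
      exact ⟨e1, e2, e3, e4, e5, fun l => (Set.mem_iInter.1 e6 l).2,
        fun i hi => (Set.mem_iInter.1 e7 ⟨i, hi⟩).2⟩
  rw [hD]
  exact o.preimage (continuous_sl j)

theorem bfA_self (b : Bs K) (u : Ix K ⊕ Ix K → ℝ) :
    bfA b (lf u) (lf u) = ∑ e : Em K, ‖(rw2 b u e).1‖ ^ 2 := by
  rw [Fintype.sum_sigma]
  unfold bfA
  refine sum_congr rfl fun i _ => ?_
  rw [Pool.Agent.Y714.KF.bf_self]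
  rfl

theorem Dcj_bounded (hodd : Odd (dg K)) (hn : 3 ≤ dg K) (b : Bs K) (κ : Ux K → ℝ) (i₀ j : s)
    (hj : finrank ℚ (K j) = 1) (δ : ℝ) (hδ : 0 < δ) : Bornology.IsBounded (Dcj b κ i₀ j δ) := by
  obtain ⟨C, hC, hbr⟩ := brb (K := K) hodd (∑ l, |κ l| + 1)
  obtain ⟨c, C2, hc, hC2, hbf⟩ := exists_bfA_bound b
  obtain ⟨σ⟩ : Nonempty (K j →+* ℂ) := inferInstance
  -- the entry at the component j
  set β : ℂ := sg (b j) σ (fun _ => 1) with hβ
  have hβ0 : β ≠ 0 := by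
    have h1 := Pool.Agent.Y714.KF.sg_int (b j) σ (fun _ => 1)
    have h2 : β = σ (el (b j) fun _ => 1) := by rw [← h1, hβ]; simp
    rw [h2]
    apply (map_ne_zero σ).2
    intro h3
    have h4 : el (b j) (fun _ => (0 : ℤ)) = 0 := by unfold el; simp
    have h5 := Pool.Agent.Y714.KF.el_injective (b j) (h3.trans h4.symm)
    have h6 := congrFun h5 ⟨0, by omega⟩
    simp at h6
  have hβn : 0 < ‖β‖ := norm_pos_iff.2 hβ0
  obtain ⟨E, hE⟩ : ∃ E, E = C * Real.exp 2 := ⟨_, rfl⟩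
  have hE0 : 0 < E := by rw [hE]; positivity
  obtain ⟨A, hA⟩ : ∃ A, A = (dg K : ℝ) * (E / ‖β‖) ^ 2 := ⟨_, rfl⟩
  have hA0 : 0 ≤ A := by rw [hA]; positivity
  obtain ⟨A', hA'⟩ : ∃ A', A' = (A ^ 2 + (dg K : ℝ) ^ 2 * E ^ 2) / δ ^ 2 := ⟨_, rfl⟩
  have hA'0 : 0 ≤ A' := by rw [hA']; positivity
  rw [isBounded_iff_forall_norm_le]
  refine ⟨max (Real.sqrt (A / c)) (Real.sqrt (A' / c)), fun u hu => ?_⟩
  obtain ⟨h1, h2, h3, h4, h5, h6, h7⟩ := hu
  set x := sl j u with hx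
  have hpm : 0 < pm (rw2 b x) := Pool.Agent.Y714.KF.pm_pos (by rw [card_Em]; omega) h4
  -- the sizes
  have hui : ∀ i, ui (rw2 b x) i ≤ 1 := by
    intro i
    by_cases hi : i = i₀
    · subst hi
      have hs := suu (K := K) (by omega) (rw2 b x)
      have hl : Real.log (pm (rw2 b x)) ≤ 0 := Real.log_nonpos hpm.le h5
      have hs2 : ∑ k, (finrank ℚ (K k) : ℝ) * ui (rw2 b x) k =
          (finrank ℚ (K i) : ℝ) * ui (rw2 b x) i +
            ∑ k ∈ univ.erase i, (finrank ℚ (K k) : ℝ) * ui (rw2 b x) k :=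
        (add_sum_erase univ _ (mem_univ i)).symm
      have hs3 : 0 ≤ ∑ k ∈ univ.erase i, (finrank ℚ (K k) : ℝ) * ui (rw2 b x) k :=
        sum_nonneg fun k hk => mul_nonneg (by positivity) (h7 k (ne_of_mem_erase hk)).1
      have hpos : (0 : ℝ) < finrank ℚ (K i) := by exact_mod_cast finrank_pos
      have hs4 : (finrank ℚ (K i) : ℝ) * ui (rw2 b x) i ≤ 0 := by linarith
      by_contra hcon
      push Not at hcon
      have : 0 < (finrank ℚ (K i) : ℝ) * ui (rw2 b x) i := by positivity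
      linarith
    · exact (h7 i hi).2
  have hB : ∀ e f : Em K, ‖br (rw2 b x e) (rw2 b x f)‖ ≤ E := by
    intro e f
    have g1 := hbr (rw2 b x) (SYM_rw2 b x) hpm (fun l => by
      have g3 : |κ l| ≤ ∑ l, |κ l| := single_le_sum (f := fun l => |κ l|)
        (fun _ _ => abs_nonneg _) (mem_univ l)
      obtain ⟨g4, g5⟩ := h6 l
      rw [abs_le]
      constructor
      · linarith [neg_abs_le (κ l)]
      · linarith [le_abs_self (κ l)]) e f
    refine g1.trans ?_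
    rw [hE]
    apply mul_le_mul_of_nonneg_left _ hC.le
    apply Real.exp_le_exp.2
    linarith [hui e.1, hui f.1]
  have hvj : rw2 b x ⟨j, σ⟩ = (0, β) := by
    unfold rw2
    refine Prod.ext ?_ ?_
    · simp only [hx, sl_inl]
      unfold sg
      simp
    · simp only [hx, sl_inr]
      rfl
  have hleft : ∀ e : Em K, ‖(rw2 b x e).1‖ ≤ E / ‖β‖ := by
    intro e
    rw [le_div_iff₀ hβn]
    have g := hB e ⟨j, σ⟩
    rw [hvj] at g
    unfold br at g
    simp only [mul_zero, sub_zero] at g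
    rwa [norm_mul] at g
  have hq1 : bfA b (lf x) (lf x) ≤ A := by
    rw [bfA_self, hA]
    calc ∑ e : Em K, ‖(rw2 b x e).1‖ ^ 2 ≤ ∑ e : Em K, (E / ‖β‖) ^ 2 :=
          sum_le_sum fun e _ => pow_le_pow_left₀ (norm_nonneg _) (hleft e) 2
      _ = _ := by rw [sum_const, card_univ, card_Em, nsmul_eq_mul]
  have hl := lagrangeA b x
  have hl2 : ∑ e : Em K, ∑ f : Em K, ‖br (rw2 b x e) (rw2 b x f)‖ ^ 2 ≤
      (dg K : ℝ) ^ 2 * E ^ 2 := by
    calc ∑ e : Em K, ∑ f : Em K, ‖br (rw2 b x e) (rw2 b x f)‖ ^ 2 ≤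
        ∑ e : Em K, ∑ f : Em K, E ^ 2 :=
          sum_le_sum fun e _ => sum_le_sum fun f _ => pow_le_pow_left₀ (norm_nonneg _) (hB e f) 2
      _ = _ := by
          rw [sum_const, sum_const, card_univ, card_Em, nsmul_eq_mul, nsmul_eq_mul]
          ring
  have hq2 : bfA b (rt x) (rt x) ≤ A' := by
    rw [hA', le_div_iff₀ (by positivity)]
    by_cases hr : 0 ≤ bfA b (rt x) (rt x)
    · have g1 : bfA b (rt x) (rt x) * δ ^ 2 ≤ bfA b (rt x) (rt x) * bfA b (lf x) (lf x) :=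
        mul_le_mul_of_nonneg_left h1 hr
      have g2 : bfA b (lf x) (rt x) ^ 2 ≤ A ^ 2 :=
        pow_le_pow_left₀ h2 (h3.trans hq1) 2
      nlinarith
    · push Not at hr
      have : bfA b (rt x) (rt x) * δ ^ 2 ≤ 0 :=
        mul_nonpos_of_nonpos_of_nonneg hr.le (by positivity)
      have h9 : 0 ≤ A ^ 2 + (dg K : ℝ) ^ 2 * E ^ 2 := by positivity
      linarith
  have hlx : ‖lf x‖ ≤ Real.sqrt (A / c) := by
    apply Real.le_sqrt_of_sq_le
    rw [le_div_iff₀ hc]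
    have := (hbf (lf x)).1
    linarith
  have hrx : ‖rt x‖ ≤ Real.sqrt (A' / c) := by
    apply Real.le_sqrt_of_sq_le
    rw [le_div_iff₀ hc]
    have := (hbf (rt x)).1
    linarith
  rw [pi_norm_le_iff_of_nonneg (le_max_of_le_left (Real.sqrt_nonneg _))]
  rintro ⟨k | k, hk⟩
  · have e := sl_of_ne j u ⟨Sum.inl k, hk⟩
    simp only at e
    rw [← e]
    exact ((norm_le_pi_norm (lf x) k).trans hlx).trans (le_max_left _ _)
  · have e := sl_of_ne j u ⟨Sum.inr k, hk⟩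
    simp only at e
    rw [← e]
    exact ((norm_le_pi_norm (rt x) k).trans hrx).trans (le_max_right _ _)

variable (K) in
theorem opj (h : S_CCC K) : S_OPJ K := by
  intro hodd hn b κ i₀ j hj δ hδ
  exact ⟨Dmj_open b κ i₀ j δ (h hodd hn b).1 (h hodd hn b).2,
    Dcj_bounded hodd hn b κ i₀ j hj δ hδ⟩

end

end Pool.Agent.Y977.KE
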